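import Pool.Agent.Helper95.PW.Stmts

set_option autoImplicit false

namespace Pool.Agent.Helper95.PW

open MeasureTheory Filter

namespace ErrAux

/-- smooth with compact support -/
def SC {n : ℕ} (v : Cf n → ℝ) : Prop := ContDiff ℝ (⊤ : ℕ∞) v ∧ HasCompactSupport v

theorem sc_dv {n : ℕ} {v : Cf n → ℝ} (h : SC v) (k : Fin n) (i : Fin 3) : SC (dv k i v) := by
  refine ⟨?_, h.2.fderiv_apply (𝕜 := ℝ) _⟩
  exact (h.1.fderiv_right (m := (⊤ : ℕ∞)) (by simp)).clm_apply contDiff_const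

theorem int_sq {n : ℕ} {v : Cf n → ℝ} (h : SC v) : Integrable (fun x => v x ^ 2) := by
  have hc : HasCompactSupport (fun x => v x ^ 2) := by
    refine HasCompactSupport.intro (K := tsupport v) h.2 fun x hx => ?_
    have h0 : v x = 0 := image_eq_zero_of_notMem_tsupport hx
    rw [h0]
    norm_num
  have hco : Continuous (fun x => v x ^ 2) := h.1.continuous.pow 2
  exact hco.integrable_of_hasCompactSupport hc

theorem sc_pd {g : R3 → ℝ} (h : ContDiff ℝ (⊤ : ℕ∞) g) (h' : HasCompactSupport g) (i : Fin 3) :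
    ContDiff ℝ (⊤ : ℕ∞) (pd i g) ∧ HasCompactSupport (pd i g) := by
  refine ⟨?_, h'.fderiv_apply (𝕜 := ℝ) _⟩
  exact (h.fderiv_right (m := (⊤ : ℕ∞)) (by simp)).clm_apply contDiff_const

theorem bdd {g : R3 → ℝ} (h : ContDiff ℝ (⊤ : ℕ∞) g) (h' : HasCompactSupport g) :
    ∃ C : ℝ, ∀ y, |g y| ≤ C := by
  obtain ⟨C, hC⟩ := h.continuous.bounded_above_of_compact_support h'
  exact ⟨C, fun y => by simpa using hC y⟩

theorem bdd_fin {ι : Type} [Fintype ι] {F : ι → R3 → ℝ} (h : ∀ i, ∃ C : ℝ, ∀ y, |F i y| ≤ C) :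
    ∃ C : ℝ, ∀ i y, |F i y| ≤ C := by
  choose C hC using h
  refine ⟨∑ i, |C i|, fun i y => (hC i y).trans ((le_abs_self _).trans ?_)⟩
  exact Finset.single_le_sum (f := fun i => |C i|) (fun j _ => abs_nonneg _) (Finset.mem_univ i)

theorem dv_comp_le {n : ℕ} {f : R3 → ℝ} (hf : Differentiable ℝ f) {B : ℝ} (l k : Fin n)
    (j : Fin 3) (hB : ∀ y, |pd j f y| ≤ B) (x : Cf n) :
    |dv l j (fun x => f (x k)) x| ≤ B := by
  have h1 : HasFDerivAt (fun x : Cf n => f (x k))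
      ((fderiv ℝ f (x k)).comp (ContinuousLinearMap.proj (R := ℝ) k)) x :=
    HasFDerivAt.comp x (hf (x k)).hasFDerivAt
      (ContinuousLinearMap.proj (R := ℝ) (φ := fun _ : Fin n => R3) k).hasFDerivAt
  have h2 : dv l j (fun x => f (x k)) x =
      fderiv ℝ f (x k) ((Pi.single l (Pi.single j 1) : Cf n) k) := by
    unfold dv
    rw [h1.fderiv]
    rfl
  rw [h2]
  by_cases hk : k = l
  · subst hk
    rw [Pi.single_eq_same]
    exact hB _
  · rw [Pi.single_eq_of_ne hk, map_zero, abs_zero]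
    exact (abs_nonneg _).trans (hB (x k))

theorem dv_mul {n : ℕ} {a b : Cf n → ℝ} (ha : Differentiable ℝ a) (hb : Differentiable ℝ b)
    (l : Fin n) (j : Fin 3) (x : Cf n) :
    dv l j (fun x => a x * b x) x = a x * dv l j b x + b x * dv l j a x := by
  unfold dv
  rw [fderiv_fun_mul (ha x) (hb x)]
  simp

theorem dv_add {n : ℕ} {a b : Cf n → ℝ} (ha : Differentiable ℝ a) (hb : Differentiable ℝ b)
    (l : Fin n) (j : Fin 3) (x : Cf n) :
    dv l j (fun x => a x + b x) x = dv l j a x + dv l j b x := by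
  unfold dv
  rw [fderiv_fun_add (ha x) (hb x)]
  simp

theorem dv_sum {n : ℕ} {ι : Type} [Fintype ι] {a : ι → Cf n → ℝ}
    (ha : ∀ i, Differentiable ℝ (a i)) (l : Fin n) (j : Fin 3) (x : Cf n) :
    dv l j (fun x => ∑ i, a i x) x = ∑ i, dv l j (a i) x := by
  unfold dv
  rw [fderiv_fun_sum (fun i _ => ha i x)]
  simp

theorem dv_prod_le {n : ℕ} {f : R3 → ℝ} {w : Cf n → ℝ} (hf : Differentiable ℝ f)
    (hw : Differentiable ℝ w) {A : ℝ} (l k : Fin n) (j : Fin 3) (hA : ∀ y, |f y| ≤ A)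
    (hB : ∀ y, |pd j f y| ≤ A) (x : Cf n) :
    |dv l j (fun x => f (x k) * w x) x| ≤ A * |dv l j w x| + A * |w x| := by
  have hfk : Differentiable ℝ (fun x : Cf n => f (x k)) :=
    hf.comp (differentiable_apply k)
  rw [dv_mul hfk hw]
  refine (abs_add_le _ _).trans ?_
  rw [abs_mul, abs_mul]
  have h1 := mul_le_mul_of_nonneg_right (hA (x k)) (abs_nonneg (dv l j w x))
  have h2 := mul_le_mul_of_nonneg_left (dv_comp_le hf l k j hB x) (abs_nonneg (w x))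
  nlinarith

/-- sum of the absolute values of the first derivatives -/
noncomputable def S1 {n : ℕ} (v : Cf n → ℝ) (x : Cf n) : ℝ := ∑ k, ∑ i, |dv k i v x|

noncomputable def S2 {n : ℕ} (v : Cf n → ℝ) (x : Cf n) : ℝ :=
  ∑ l, ∑ j, ∑ k, ∑ i, |dv l j (dv k i v) x|

theorem S1_nonneg {n : ℕ} (v : Cf n → ℝ) (x : Cf n) : 0 ≤ S1 v x :=
  Finset.sum_nonneg fun _ _ => Finset.sum_nonneg fun _ _ => abs_nonneg _

theorem pg_le {n : ℕ} {g : R3 → ℝ} {A : ℝ} (h1 : ∀ i y, |pd i g y| ≤ A)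
    (hL : ∀ y, |lap g y / 2| ≤ A) (v : Cf n → ℝ) (x : Cf n) :
    |Pg g v x| ≤ A * S1 v x + n * A * |v x| := by
  unfold Pg S1
  refine (Finset.abs_sum_le_sum_abs _ _).trans ?_
  have : ∀ k ∈ (Finset.univ : Finset (Fin n)),
      |(∑ i, pd i g (x k) * dv k i v x) + lap g (x k) / 2 * v x| ≤
        A * ∑ i, |dv k i v x| + A * |v x| := by
    intro k _
    refine (abs_add_le _ _).trans (add_le_add ?_ ?_)
    · refine (Finset.abs_sum_le_sum_abs _ _).trans ?_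
      rw [Finset.mul_sum]
      refine Finset.sum_le_sum fun i _ => ?_
      rw [abs_mul]
      exact mul_le_mul_of_nonneg_right (h1 i _) (abs_nonneg _)
    · rw [abs_mul]
      exact mul_le_mul_of_nonneg_right (hL _) (abs_nonneg _)
  refine (Finset.sum_le_sum this).trans (le_of_eq ?_)
  rw [Finset.sum_add_distrib, ← Finset.mul_sum, Finset.sum_const, Finset.card_univ,
    Fintype.card_fin, nsmul_eq_mul]
  ring

theorem dpg_le {n : ℕ} {g : R3 → ℝ} {A : ℝ} (hg : ContDiff ℝ (⊤ : ℕ∞) g)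
    (hc : HasCompactSupport g)
    (h1 : ∀ i y, |pd i g y| ≤ A) (h2 : ∀ p : Fin 3 × Fin 3, ∀ y, |pd p.1 (pd p.2 g) y| ≤ A)
    (hL : ∀ y, |lap g y / 2| ≤ A) (hL1 : ∀ i y, |pd i (fun y => lap g y / 2) y| ≤ A)
    {v : Cf n → ℝ} (hv : SC v) (l : Fin n) (j : Fin 3) (x : Cf n) :
    |dv l j (Pg g v) x| ≤ A * (∑ k, ∑ i, |dv l j (dv k i v) x|) + A * S1 v x +
      n * A * |dv l j v x| + n * A * |v x| := by
  have hdv : ∀ k i, Differentiable ℝ (dv k i v) := fun k i =>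
    (sc_dv hv k i).1.differentiable (by simp)
  have hvd : Differentiable ℝ v := hv.1.differentiable (by simp)
  have hpd : ∀ i, Differentiable ℝ (pd i g) := fun i =>
    (sc_pd hg hc i).1.differentiable (by simp)
  have hlapc : ContDiff ℝ (⊤ : ℕ∞) (fun y => lap g y / 2) := by
    unfold lap
    refine ContDiff.div_const (ContDiff.sum fun i _ => ?_) 2
    exact (sc_pd (sc_pd hg hc i).1 (sc_pd hg hc i).2 i).1
  have hlap : Differentiable ℝ (fun y => lap g y / 2) := hlapc.differentiable (by simp)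
  have hk : ∀ k : Fin n, Differentiable ℝ (fun x : Cf n => x k) := fun k =>
    differentiable_apply k
  have hpk : ∀ (k : Fin n) (i : Fin 3), Differentiable ℝ (fun x : Cf n => pd i g (x k)) :=
    fun k i => (hpd i).comp (hk k)
  have hlk : ∀ k : Fin n, Differentiable ℝ (fun x : Cf n => lap g (x k) / 2) :=
    fun k => hlap.comp (hk k)
  have hterm : ∀ (k : Fin n) (i : Fin 3),
      Differentiable ℝ (fun x : Cf n => pd i g (x k) * dv k i v x) :=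
    fun k i => (hpk k i).mul (hdv k i)
  have hterm2 : ∀ k : Fin n, Differentiable ℝ (fun x : Cf n => lap g (x k) / 2 * v x) :=
    fun k => (hlk k).mul hvd
  have hsum : ∀ k : Fin n, Differentiable ℝ
      (fun x : Cf n => ∑ i, pd i g (x k) * dv k i v x) := by
    intro k
    exact Differentiable.fun_sum fun i _ => hterm k i
  have e : dv l j (Pg g v) x = ∑ k, ((∑ i, dv l j (fun x => pd i g (x k) * dv k i v x) x) +
      dv l j (fun x => lap g (x k) / 2 * v x) x) := by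
    have := dv_sum (n := n) (a := fun (k : Fin n) (x : Cf n) =>
      (∑ i, pd i g (x k) * dv k i v x) + lap g (x k) / 2 * v x)
      (fun k => (hsum k).add (hterm2 k)) l j x
    refine Eq.trans this ?_
    refine Finset.sum_congr rfl fun k _ => ?_
    rw [dv_add (hsum k) (hterm2 k), dv_sum (hterm k)]
  rw [e]
  refine (Finset.abs_sum_le_sum_abs _ _).trans ?_
  have : ∀ k ∈ (Finset.univ : Finset (Fin n)),
      |(∑ i, dv l j (fun x => pd i g (x k) * dv k i v x) x) +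
        dv l j (fun x => lap g (x k) / 2 * v x) x| ≤
      (A * (∑ i, |dv l j (dv k i v) x|) + A * ∑ i, |dv k i v x|) +
        (A * |dv l j v x| + A * |v x|) := by
    intro k _
    refine (abs_add_le _ _).trans (add_le_add ?_ ?_)
    · refine (Finset.abs_sum_le_sum_abs _ _).trans ?_
      rw [Finset.mul_sum, Finset.mul_sum, ← Finset.sum_add_distrib]
      refine Finset.sum_le_sum fun i _ => ?_
      exact dv_prod_le (hpd i) (hdv k i) l k j (h1 i) (h2 (j, i)) x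
    · exact dv_prod_le (f := fun y => lap g y / 2) hlap hvd l k j hL (hL1 j) x
  refine (Finset.sum_le_sum this).trans (le_of_eq ?_)
  unfold S1
  rw [Finset.sum_add_distrib, Finset.sum_add_distrib, ← Finset.mul_sum, ← Finset.mul_sum,
    Finset.sum_const, Finset.card_univ, Fintype.card_fin, nsmul_eq_mul]
  ring

theorem ppg_le {n : ℕ} {g : R3 → ℝ} {A : ℝ} (hA : 0 ≤ A) (hg : ContDiff ℝ (⊤ : ℕ∞) g)
    (hc : HasCompactSupport g)
    (h1 : ∀ i y, |pd i g y| ≤ A) (h2 : ∀ p : Fin 3 × Fin 3, ∀ y, |pd p.1 (pd p.2 g) y| ≤ A)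
    (hL : ∀ y, |lap g y / 2| ≤ A) (hL1 : ∀ i y, |pd i (fun y => lap g y / 2) y| ≤ A)
    {v : Cf n → ℝ} (hv : SC v) (x : Cf n) :
    |Pg g (Pg g v) x| ≤ (A ^ 2 * (1 + 5 * n + 4 * n ^ 2)) * (S2 v x + S1 v x + |v x|) := by
  have hS1 := S1_nonneg v x
  have hS2 : 0 ≤ S2 v x := Finset.sum_nonneg fun _ _ => Finset.sum_nonneg fun _ _ =>
    Finset.sum_nonneg fun _ _ => Finset.sum_nonneg fun _ _ => abs_nonneg _
  have hb : S1 (Pg g v) x ≤ A * S2 v x + 3 * n * (A * S1 v x) + n * A * S1 v x +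
      3 * n * (n * A * |v x|) := by
    have : S1 (Pg g v) x ≤ ∑ l : Fin n, ∑ j : Fin 3, (A * (∑ k, ∑ i, |dv l j (dv k i v) x|) +
        A * S1 v x + n * A * |dv l j v x| + n * A * |v x|) := by
      unfold S1
      exact Finset.sum_le_sum fun l _ => Finset.sum_le_sum fun j _ =>
        dpg_le hg hc h1 h2 hL hL1 hv l j x
    refine this.trans (le_of_eq ?_)
    simp only [Finset.sum_add_distrib, ← Finset.mul_sum, Finset.sum_const, Finset.card_univ,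
      Fintype.card_fin, nsmul_eq_mul]
    unfold S2
    have e1 : ∑ l : Fin n, ∑ j : Fin 3, |dv l j v x| = S1 v x := rfl
    rw [e1]
    push_cast
    ring
  have hp := pg_le h1 hL (Pg g v) x
  have hq := pg_le h1 hL v x
  have hn : (0 : ℝ) ≤ n := Nat.cast_nonneg n
  have hv0 := abs_nonneg (v x)
  have hb' := mul_le_mul_of_nonneg_left hb hA
  have hq' := mul_le_mul_of_nonneg_left hq (mul_nonneg hn hA)
  have hfin : |Pg g (Pg g v) x| ≤ A * (A * S2 v x + 3 * n * (A * S1 v x) + n * A * S1 v x +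
      3 * n * (n * A * |v x|)) + n * A * (A * S1 v x + n * A * |v x|) := by linarith
  refine hfin.trans ?_
  have hA2 : 0 ≤ A ^ 2 := sq_nonneg A
  have t1 : 0 ≤ A ^ 2 * S2 v x * n := by positivity
  have t2 : 0 ≤ A ^ 2 * S2 v x * n ^ 2 := by positivity
  have t3 : 0 ≤ A ^ 2 * S1 v x := by positivity
  have t4 : 0 ≤ A ^ 2 * S1 v x * n ^ 2 := by positivity
  have t5 : 0 ≤ A ^ 2 * |v x| := by positivity
  have t6 : 0 ≤ A ^ 2 * |v x| * n := by positivity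
  nlinarith

theorem sq2 {n : ℕ} (a : Fin n → Fin 3 → ℝ) :
    (∑ k, ∑ i, |a k i|) ^ 2 ≤ 3 * n * ∑ k, ∑ i, a k i ^ 2 := by
  have h1 : (∑ k, ∑ i, |a k i|) ^ 2 ≤ n * ∑ k, (∑ i, |a k i|) ^ 2 := by
    have := sq_sum_le_card_mul_sum_sq (s := (Finset.univ : Finset (Fin n)))
      (f := fun k => ∑ i, |a k i|)
    simpa using this
  have h2 : ∀ k ∈ (Finset.univ : Finset (Fin n)),
      (∑ i, |a k i|) ^ 2 ≤ 3 * ∑ i, a k i ^ 2 := by
    intro k _
    have := sq_sum_le_card_mul_sum_sq (s := (Finset.univ : Finset (Fin 3)))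
      (f := fun i => |a k i|)
    simpa using this
  calc _ ≤ (n : ℝ) * ∑ k, (∑ i, |a k i|) ^ 2 := h1
    _ ≤ (n : ℝ) * ∑ k, 3 * ∑ i, a k i ^ 2 :=
        mul_le_mul_of_nonneg_left (Finset.sum_le_sum h2) (Nat.cast_nonneg n)
    _ = _ := by rw [← Finset.mul_sum]; ring

theorem S1_sq {n : ℕ} (v : Cf n → ℝ) (x : Cf n) :
    S1 v x ^ 2 ≤ 3 * n * ∑ k, ∑ i, dv k i v x ^ 2 := sq2 fun k i => dv k i v x

theorem S2_sq {n : ℕ} (v : Cf n → ℝ) (x : Cf n) :
    S2 v x ^ 2 ≤ (3 * n) ^ 2 * ∑ l, ∑ j, ∑ k, ∑ i, dv l j (dv k i v) x ^ 2 := by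
  have h0 : S2 v x = ∑ l, ∑ j, abs (∑ k, ∑ i, |dv l j (dv k i v) x|) := by
    unfold S2
    refine Finset.sum_congr rfl fun l _ => Finset.sum_congr rfl fun j _ => ?_
    rw [abs_of_nonneg]
    exact Finset.sum_nonneg fun _ _ => Finset.sum_nonneg fun _ _ => abs_nonneg _
  have h1 := sq2 (n := n) fun l j => ∑ k, ∑ i, |dv l j (dv k i v) x|
  rw [← h0] at h1
  refine h1.trans ?_
  have h2 : ∑ l, ∑ j, (∑ k, ∑ i, |dv l j (dv k i v) x|) ^ 2 ≤
      ∑ l : Fin n, ∑ j : Fin 3, 3 * n * ∑ k, ∑ i, dv l j (dv k i v) x ^ 2 :=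
    Finset.sum_le_sum fun l _ => Finset.sum_le_sum fun j _ => sq2 fun k i => dv l j (dv k i v) x
  have hn : (0 : ℝ) ≤ 3 * n := by positivity
  refine (mul_le_mul_of_nonneg_left h2 hn).trans (le_of_eq ?_)
  simp only [← Finset.mul_sum]
  ring

/-- from a pointwise bound to the integrals -/
theorem int_le {n : ℕ} {v w : Cf n → ℝ} (hv : SC v) {C : ℝ} (h : ∀ x, w x ^ 2 ≤ C *
    ((∑ l, ∑ j, ∑ k, ∑ i, dv l j (dv k i v) x ^ 2) + (∑ k, ∑ i, dv k i v x ^ 2) + v x ^ 2)) :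
    ∫ x, w x ^ 2 ≤ C * ((∑ l, ∑ j, ∑ k, ∑ i, ∫ x, dv l j (dv k i v) x ^ 2) +
      (∑ k, ∑ i, ∫ x, dv k i v x ^ 2) + ∫ x, v x ^ 2) := by
  have i4 : ∀ l j k i, Integrable (fun x => dv l j (dv k i v) x ^ 2) := fun l j k i =>
    int_sq (sc_dv (sc_dv hv k i) l j)
  have i2 : ∀ k i, Integrable (fun x => dv k i v x ^ 2) := fun k i => int_sq (sc_dv hv k i)
  have i0 := int_sq hv
  have j4 : Integrable (fun x => ∑ l, ∑ j, ∑ k, ∑ i, dv l j (dv k i v) x ^ 2) :=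
    integrable_finsetSum _ fun l _ => integrable_finsetSum _ fun j _ =>
      integrable_finsetSum _ fun k _ => integrable_finsetSum _ fun i _ => i4 l j k i
  have j2 : Integrable (fun x => ∑ k, ∑ i, dv k i v x ^ 2) :=
    integrable_finsetSum _ fun k _ => integrable_finsetSum _ fun i _ => i2 k i
  have hm : ∫ x, w x ^ 2 ≤ ∫ x, C * ((∑ l, ∑ j, ∑ k, ∑ i, dv l j (dv k i v) x ^ 2) +
      (∑ k, ∑ i, dv k i v x ^ 2) + v x ^ 2) := by
    refine integral_mono_of_nonneg (Eventually.of_forall fun x => sq_nonneg _)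
      (((j4.add j2).add i0).const_mul C) (Eventually.of_forall h)
  refine hm.trans (le_of_eq ?_)
  rw [integral_const_mul, integral_add (f := fun x => (∑ l, ∑ j, ∑ k, ∑ i,
    dv l j (dv k i v) x ^ 2) + ∑ k, ∑ i, dv k i v x ^ 2) (j4.add j2) i0, integral_add j4 j2]
  congr 3
  · rw [integral_finsetSum _ fun l _ => integrable_finsetSum _ fun j _ =>
      integrable_finsetSum _ fun k _ => integrable_finsetSum _ fun i _ => i4 l j k i]
    refine Finset.sum_congr rfl fun l _ => ?_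
    rw [integral_finsetSum _ fun j _ =>
      integrable_finsetSum _ fun k _ => integrable_finsetSum _ fun i _ => i4 l j k i]
    refine Finset.sum_congr rfl fun j _ => ?_
    rw [integral_finsetSum _ fun k _ => integrable_finsetSum _ fun i _ => i4 l j k i]
    refine Finset.sum_congr rfl fun k _ => ?_
    rw [integral_finsetSum _ fun i _ => i4 l j k i]
  · rw [integral_finsetSum _ fun k _ => integrable_finsetSum _ fun i _ => i2 k i]
    refine Finset.sum_congr rfl fun k _ => ?_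
    rw [integral_finsetSum _ fun i _ => i2 k i]

theorem int_le1 {n : ℕ} {v w : Cf n → ℝ} (hv : SC v) {C : ℝ} (h : ∀ x, w x ^ 2 ≤ C *
    ((∑ k, ∑ i, dv k i v x ^ 2) + v x ^ 2)) :
    ∫ x, w x ^ 2 ≤ C * ((∑ k, ∑ i, ∫ x, dv k i v x ^ 2) + ∫ x, v x ^ 2) := by
  have i2 : ∀ k i, Integrable (fun x => dv k i v x ^ 2) := fun k i => int_sq (sc_dv hv k i)
  have i0 := int_sq hv
  have j2 : Integrable (fun x => ∑ k, ∑ i, dv k i v x ^ 2) :=
    integrable_finsetSum _ fun k _ => integrable_finsetSum _ fun i _ => i2 k i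
  have hm : ∫ x, w x ^ 2 ≤ ∫ x, C * ((∑ k, ∑ i, dv k i v x ^ 2) + v x ^ 2) := by
    refine integral_mono_of_nonneg (Eventually.of_forall fun x => sq_nonneg _)
      ((j2.add i0).const_mul C) (Eventually.of_forall h)
  refine hm.trans (le_of_eq ?_)
  rw [integral_const_mul, integral_add j2 i0]
  congr 2
  rw [integral_finsetSum _ fun k _ => integrable_finsetSum _ fun i _ => i2 k i]
  refine Finset.sum_congr rfl fun k _ => ?_
  rw [integral_finsetSum _ fun i _ => i2 k i]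

theorem kin_eq {n : ℕ} (u : Wf n) : kin u = ∑ s, ∑ k, ∑ i, ∫ x, dv k i (u s) x ^ 2 := by
  unfold kin sq
  have h1 : ∀ k : Fin n, ∑ i : Fin 3, ∑ s, ∫ x, dv k i (u s) x ^ 2 =
      ∑ s, ∑ i : Fin 3, ∫ x, dv k i (u s) x ^ 2 := fun _ => Finset.sum_comm
  simp only [h1]
  exact Finset.sum_comm

theorem dd_eq {n : ℕ} (u : Wf n) :
    dd u = ∑ s, ∑ l, ∑ j, ∑ k, ∑ i, ∫ x, dv l j (dv k i (u s)) x ^ 2 := by
  unfold dd sq
  have h1 : ∀ (l : Fin n) (j : Fin 3) (k : Fin n),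
      ∑ i : Fin 3, ∑ s, ∫ x, dv l j (dv k i (u s)) x ^ 2 =
      ∑ s, ∑ i : Fin 3, ∫ x, dv l j (dv k i (u s)) x ^ 2 := fun _ _ _ => Finset.sum_comm
  simp only [h1]
  have h2 : ∀ (l : Fin n) (j : Fin 3),
      ∑ k : Fin n, ∑ s, ∑ i : Fin 3, ∫ x, dv l j (dv k i (u s)) x ^ 2 =
      ∑ s, ∑ k : Fin n, ∑ i : Fin 3, ∫ x, dv l j (dv k i (u s)) x ^ 2 :=
    fun _ _ => Finset.sum_comm
  simp only [h2]
  have h3 : ∀ (l : Fin n),
      ∑ j : Fin 3, ∑ s, ∑ k : Fin n, ∑ i : Fin 3, ∫ x, dv l j (dv k i (u s)) x ^ 2 =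
      ∑ s, ∑ j : Fin 3, ∑ k : Fin n, ∑ i : Fin 3, ∫ x, dv l j (dv k i (u s)) x ^ 2 :=
    fun _ => Finset.sum_comm
  simp only [h3]
  exact Finset.sum_comm

theorem alg1 {n A S v X P : ℝ} (hn : 0 ≤ n) (hX : 0 ≤ X) (hS : S ^ 2 ≤ 3 * n * X)
    (hP : |P| ≤ A * S + n * A * |v|) : P ^ 2 ≤ (2 * A ^ 2 * (3 * n + n ^ 2 + 1)) * (X + v ^ 2) := by
  have hsq : P ^ 2 ≤ (A * S + n * A * |v|) ^ 2 := by
    rw [← sq_abs P]
    exact pow_le_pow_left₀ (abs_nonneg _) hP 2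
  have e : |v| ^ 2 = v ^ 2 := sq_abs _
  have e2 : (A * S + n * A * |v|) ^ 2 = 2 * A ^ 2 * S ^ 2 + 2 * A ^ 2 * n ^ 2 * |v| ^ 2 -
      (A * S - n * A * |v|) ^ 2 := by ring
  rw [e2, e] at hsq
  have h3 : 2 * A ^ 2 * S ^ 2 ≤ 2 * A ^ 2 * (3 * n * X) :=
    mul_le_mul_of_nonneg_left hS (by positivity)
  have t1 : 0 ≤ 2 * A ^ 2 * (n ^ 2 + 1) * X := by positivity
  have t2 : 0 ≤ 2 * A ^ 2 * (3 * n + 1) * v ^ 2 := by positivity
  have t3 := sq_nonneg (A * S - n * A * |v|)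
  have e3 : (2 * A ^ 2 * (3 * n + n ^ 2 + 1)) * (X + v ^ 2) = 2 * A ^ 2 * (3 * n * X) +
      2 * A ^ 2 * n ^ 2 * v ^ 2 + 2 * A ^ 2 * (n ^ 2 + 1) * X +
      2 * A ^ 2 * (3 * n + 1) * v ^ 2 := by ring
  rw [e3]
  linarith

theorem alg2 {n c T S v X Y P : ℝ} (hn : 0 ≤ n) (hX : 0 ≤ X) (hY : 0 ≤ Y)
    (hS : S ^ 2 ≤ 3 * n * X) (hT : T ^ 2 ≤ (3 * n) ^ 2 * Y) (hP : |P| ≤ c * (T + S + |v|)) :
    P ^ 2 ≤ (c ^ 2 * 3 * ((3 * n) ^ 2 + 3 * n + 1)) * (Y + X + v ^ 2) := by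
  have hsq : P ^ 2 ≤ (c * (T + S + |v|)) ^ 2 := by
    rw [← sq_abs P]
    exact pow_le_pow_left₀ (abs_nonneg _) hP 2
  have e : |v| ^ 2 = v ^ 2 := sq_abs _
  have e2 : (c * (T + S + |v|)) ^ 2 = c ^ 2 * (3 * (T ^ 2 + S ^ 2 + |v| ^ 2) -
      (T - S) ^ 2 - (T - |v|) ^ 2 - (S - |v|) ^ 2) := by ring
  rw [e2, e] at hsq
  refine hsq.trans ?_
  have e3 : (c ^ 2 * 3 * ((3 * n) ^ 2 + 3 * n + 1)) * (Y + X + v ^ 2) =
      c ^ 2 * (3 * ((3 * n) ^ 2 * Y + 3 * n * X + v ^ 2 + (3 * n + 1) * Y +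
        ((3 * n) ^ 2 + 1) * X + ((3 * n) ^ 2 + 3 * n) * v ^ 2)) := by ring
  rw [e3]
  refine mul_le_mul_of_nonneg_left ?_ (sq_nonneg c)
  have t1 : 0 ≤ (3 * n + 1) * Y := by positivity
  have t2 : 0 ≤ ((3 * n) ^ 2 + 1) * X := by positivity
  have t3 : 0 ≤ ((3 * n) ^ 2 + 3 * n) * v ^ 2 := by positivity
  have s1 := sq_nonneg (T - S)
  have s2 := sq_nonneg (T - |v|)
  have s3 := sq_nonneg (S - |v|)
  linarith

theorem bounds {g : R3 → ℝ} (hg : ContDiff ℝ (⊤ : ℕ∞) g) (hc : HasCompactSupport g) :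
    ∃ A : ℝ, 0 < A ∧ (∀ y, |g y| ≤ A) ∧ (∀ i y, |pd i g y| ≤ A) ∧
      (∀ p : Fin 3 × Fin 3, ∀ y, |pd p.1 (pd p.2 g) y| ≤ A) ∧ (∀ y, |lap g y / 2| ≤ A) ∧
      (∀ i y, |pd i (fun y => lap g y / 2) y| ≤ A) := by
  obtain ⟨A0, hA0⟩ := bdd hg hc
  obtain ⟨A1, hA1⟩ := bdd_fin (F := fun i => pd i g)
    fun i => bdd (sc_pd hg hc i).1 (sc_pd hg hc i).2
  have hpp : ∀ p : Fin 3 × Fin 3, ContDiff ℝ (⊤ : ℕ∞) (pd p.1 (pd p.2 g)) ∧
      HasCompactSupport (pd p.1 (pd p.2 g)) := fun p =>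
    sc_pd (sc_pd hg hc p.2).1 (sc_pd hg hc p.2).2 p.1
  obtain ⟨A2, hA2⟩ := bdd_fin (F := fun p : Fin 3 × Fin 3 => pd p.1 (pd p.2 g))
    fun p => bdd (hpp p).1 (hpp p).2
  have hLs : ContDiff ℝ (⊤ : ℕ∞) (fun y => lap g y / 2) ∧
      HasCompactSupport (fun y => lap g y / 2) := by
    constructor
    · unfold lap
      exact ContDiff.div_const (ContDiff.sum fun i _ => (hpp (i, i)).1) 2
    · refine HasCompactSupport.intro (K := ⋃ i : Fin 3, tsupport (pd i (pd i g)))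
        (isCompact_iUnion fun i => (hpp (i, i)).2) fun y hy => ?_
      have h0 : ∀ i : Fin 3, pd i (pd i g) y = 0 := fun i =>
        image_eq_zero_of_notMem_tsupport fun h => hy (Set.mem_iUnion.mpr ⟨i, h⟩)
      unfold lap
      simp only [h0, Finset.sum_const_zero, zero_div]
  obtain ⟨A3, hA3⟩ := bdd hLs.1 hLs.2
  obtain ⟨A4, hA4⟩ := bdd_fin (F := fun i => pd i (fun y => lap g y / 2))
    fun i => bdd (sc_pd hLs.1 hLs.2 i).1 (sc_pd hLs.1 hLs.2 i).2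
  have p0 := abs_nonneg A0
  have p1 := abs_nonneg A1
  have p2 := abs_nonneg A2
  have p3 := abs_nonneg A3
  have p4 := abs_nonneg A4
  have q0 := le_abs_self A0
  have q1 := le_abs_self A1
  have q2 := le_abs_self A2
  have q3 := le_abs_self A3
  have q4 := le_abs_self A4
  refine ⟨|A0| + |A1| + |A2| + |A3| + |A4| + 1, by linarith, fun y => (hA0 y).trans (by linarith),
    fun i y => (hA1 i y).trans (by linarith), fun p y => (hA2 p y).trans (by linarith),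
    fun y => (hA3 y).trans (by linarith), fun i y => (hA4 i y).trans (by linarith)⟩

theorem fg_abs {n : ℕ} {g : R3 → ℝ} {A : ℝ} (b0 : ∀ y, |g y| ≤ A) (x : Cf n) :
    |∑ k, g (x k)| ≤ n * A := by
  refine (Finset.abs_sum_le_sum_abs _ _).trans ((Finset.sum_le_sum fun k _ => b0 (x k)).trans ?_)
  simp

theorem part1 {n : ℕ} {g : R3 → ℝ} {A : ℝ} (hA : 0 ≤ A) (b0 : ∀ y, |g y| ≤ A) :
    ∃ C : ℝ, 0 ≤ C ∧ ∀ u : Wf n, Sm u → sq (fun s => Fg g (Fg g (u s))) ≤ C * sq u := by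
  refine ⟨(n * A * (n * A)) ^ 2, by positivity, fun u hu => ?_⟩
  unfold sq
  rw [Finset.mul_sum]
  refine Finset.sum_le_sum fun s _ => ?_
  rw [← integral_const_mul]
  have hsc : SC (u s) := ⟨(hu s).1, (hu s).2⟩
  refine integral_mono_of_nonneg (Eventually.of_forall fun x => sq_nonneg _)
    ((int_sq hsc).const_mul _) (Eventually.of_forall fun x => ?_)
  have e : Fg g (Fg g (u s)) x ^ 2 = (|∑ k, g (x k)| * |∑ k, g (x k)|) ^ 2 * u s x ^ 2 := by
    unfold Fg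
    rw [abs_mul_abs_self]
    ring
  change Fg g (Fg g (u s)) x ^ 2 ≤ (n * A * (n * A)) ^ 2 * u s x ^ 2
  rw [e]
  refine mul_le_mul_of_nonneg_right ?_ (sq_nonneg _)
  refine pow_le_pow_left₀ (by positivity) ?_ 2
  exact mul_le_mul (fg_abs b0 x) (fg_abs b0 x) (abs_nonneg _) (by positivity)

theorem part2 {n : ℕ} {g : R3 → ℝ} {A : ℝ} (b1 : ∀ i y, |pd i g y| ≤ A)
    (b3 : ∀ y, |lap g y / 2| ≤ A) (v : Cf n → ℝ) (x : Cf n) : Pg g v x ^ 2 ≤
      (2 * A ^ 2 * (3 * n + n ^ 2 + 1)) * ((∑ k, ∑ i, dv k i v x ^ 2) + v x ^ 2) :=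
  alg1 (Nat.cast_nonneg n)
    (Finset.sum_nonneg fun _ _ => Finset.sum_nonneg fun _ _ => sq_nonneg _)
    (S1_sq v x) (pg_le b1 b3 v x)

theorem k2 {n : ℕ} {C : ℝ} {u w : Wf n} (hu : Sm u) (hw : ∀ s x, w s x ^ 2 ≤
    C * ((∑ k, ∑ i, dv k i (u s) x ^ 2) + u s x ^ 2)) : sq w ≤ C * (kin u + sq u) := by
  have : sq w ≤ ∑ s, C * ((∑ k, ∑ i, ∫ x, dv k i (u s) x ^ 2) + ∫ x, u s x ^ 2) :=
    Finset.sum_le_sum fun s _ => int_le1 ⟨(hu s).1, (hu s).2⟩ (hw s)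
  refine this.trans (le_of_eq ?_)
  rw [← Finset.mul_sum, Finset.sum_add_distrib, kin_eq]
  rfl

theorem k4 {n : ℕ} {C : ℝ} {u w : Wf n} (hu : Sm u) (hw : ∀ s x, w s x ^ 2 ≤
    C * ((∑ l, ∑ j, ∑ k, ∑ i, dv l j (dv k i (u s)) x ^ 2) + (∑ k, ∑ i, dv k i (u s) x ^ 2) +
      u s x ^ 2)) : sq w ≤ C * (dd u + kin u + sq u) := by
  have : sq w ≤ ∑ s, C *
      ((∑ l, ∑ j, ∑ k, ∑ i, ∫ x, dv l j (dv k i (u s)) x ^ 2) +
        (∑ k, ∑ i, ∫ x, dv k i (u s) x ^ 2) + ∫ x, u s x ^ 2) :=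
    Finset.sum_le_sum fun s _ => int_le ⟨(hu s).1, (hu s).2⟩ (hw s)
  refine this.trans (le_of_eq ?_)
  rw [← Finset.mul_sum, Finset.sum_add_distrib, Finset.sum_add_distrib, kin_eq, dd_eq]
  rfl

end ErrAux

open ErrAux in
theorem st_ERR : ST_ERR := by
  intro n g hg hc
  obtain ⟨A, hAp, b0, b1, b2, b3, b4⟩ := bounds hg hc
  have hn : (0 : ℝ) ≤ n := Nat.cast_nonneg n
  obtain ⟨C1, c1, h1⟩ := part1 (n := n) hAp.le b0
  obtain ⟨C2, c2, h2⟩ : ∃ C : ℝ, 0 ≤ C ∧ ∀ u : Wf n, Sm u →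
      sq (fun s => Pg g (u s)) ≤ C * (kin u + sq u) :=
    ⟨2 * A ^ 2 * (3 * n + n ^ 2 + 1), by positivity, fun u hu =>
      k2 hu fun s x => part2 b1 b3 (u s) x⟩
  obtain ⟨C3, c3, h3⟩ : ∃ C : ℝ, 0 ≤ C ∧ ∀ u : Wf n, Sm u →
      sq (fun s => Fg g (Pg g (u s))) ≤ C * (kin u + sq u) := by
    refine ⟨(n * A) ^ 2 * (2 * A ^ 2 * (3 * n + n ^ 2 + 1)), by positivity, fun u hu =>
      k2 hu fun s x => ?_⟩
    have e : Fg g (Pg g (u s)) x ^ 2 = |∑ k, g (x k)| ^ 2 * Pg g (u s) x ^ 2 := by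
      unfold Fg
      rw [sq_abs]
      ring
    rw [e, mul_assoc]
    refine mul_le_mul ?_ (part2 b1 b3 (u s) x) (sq_nonneg _) (by positivity)
    exact pow_le_pow_left₀ (abs_nonneg _) (fg_abs b0 x) 2
  obtain ⟨C4, c4, h4⟩ : ∃ C : ℝ, 0 ≤ C ∧ ∀ u : Wf n, Sm u →
      sq (fun s => Pg g (Pg g (u s))) ≤ C * (dd u + kin u + sq u) := by
    refine ⟨(A ^ 2 * (1 + 5 * n + 4 * n ^ 2)) ^ 2 * 3 * ((3 * n) ^ 2 + 3 * n + 1),
      by positivity, fun u hu => k4 hu fun s x => ?_⟩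
    have hv : SC (u s) := ⟨(hu s).1, (hu s).2⟩
    exact alg2 hn (Finset.sum_nonneg fun _ _ => Finset.sum_nonneg fun _ _ => sq_nonneg _)
      (Finset.sum_nonneg fun _ _ => Finset.sum_nonneg fun _ _ =>
        Finset.sum_nonneg fun _ _ => Finset.sum_nonneg fun _ _ => sq_nonneg _)
      (S1_sq (u s) x) (S2_sq (u s) x) (ppg_le hAp.le hg hc b1 b2 b3 b4 hv x)
  refine ⟨C1 + C2 + C3 + C4 + 1, by positivity, fun u hu => ?_⟩
  have hsu : 0 ≤ sq u := Finset.sum_nonneg fun s _ => integral_nonneg fun x => sq_nonneg _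
  have hku : 0 ≤ kin u := Finset.sum_nonneg fun k _ => Finset.sum_nonneg fun i _ =>
    Finset.sum_nonneg fun s _ => integral_nonneg fun x => sq_nonneg _
  have hdu : 0 ≤ dd u := Finset.sum_nonneg fun k _ => Finset.sum_nonneg fun i _ =>
    Finset.sum_nonneg fun l _ => Finset.sum_nonneg fun m _ =>
    Finset.sum_nonneg fun s _ => integral_nonneg fun x => sq_nonneg _
  refine ⟨(h1 u hu).trans ?_, (h2 u hu).trans ?_, (h3 u hu).trans ?_, (h4 u hu).trans ?_⟩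
  · exact mul_le_mul_of_nonneg_right (by linarith) hsu
  · exact mul_le_mul_of_nonneg_right (by linarith) (by linarith)
  · exact mul_le_mul_of_nonneg_right (by linarith) (by linarith)
  · exact mul_le_mul_of_nonneg_right (by linarith) (by linarith)

end Pool.Agent.Helper95.PW
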